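import Pool.Agent.Helper3.AK.Goals4

/-!
# Project AK, packet HB (union bound)
-/

namespace Pool.Agent.Helper70.AK

open Equiv Pool.Agent.Helper3.AK

open Classical in
/-- indicator -/
noncomputable def ind (p : Prop) : ℝ := if p then 1 else 0

theorem ind_nonneg (p : Prop) : 0 ≤ ind p := by
  unfold ind
  split_ifs <;> norm_num

theorem ind_true {p : Prop} (h : p) : ind p = 1 := if_pos h

theorem ind_false {p : Prop} (h : ¬ p) : ind p = 0 := if_neg h

theorem card_eq_ind {α : Type} [Fintype α] (P : α → Prop) :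
    (Nat.card {a // P a} : ℝ) = ∑ a, ind (P a) := by
  classical
  unfold ind
  rw [Nat.card_eq_fintype_card, Fintype.card_subtype, Finset.sum_boole]

theorem hb (h1 : S_HCT) (h2 : S_RT) : S_HB := by
  intro n r r₁ h₁ h₂ m η g hrn hh₁ hh₂ hη
  have hn : 1 ≤ n := by omega
  set D : ℝ := (n.descFactorial (2 * r) : ℝ) with hD
  have hD0 : 0 ≤ D := Nat.cast_nonneg _
  set A : (Fin 2 → Alt n) → Finset (Fin n) → ℕ → Prop := fun x H h =>
    ∀ i : Fin 2, (H.filter fun v => (x i : Perm (Fin n)) v ∉ H).card ≤ ⌊η * h⌋₊ with hA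
  set R : (Fin 2 → Alt n) → ℕ → Finset (Fin n) → Pts n r → Prop := fun x t H c =>
    r₁ ≤ (Finset.univ.filter fun q => pz x g t (c q) ∈ H).card with hR
  rw [card_eq_ind]
  have hkey : ∀ xc : (Fin 2 → Alt n) × Pts n r, ind (∃ t ≤ m, ∃ H : Finset (Fin n), h₁ ≤ H.card ∧
    H.card ≤ h₂ ∧ (∀ i : Fin 2, ((H.filter fun v => (xc.1 i : Perm (Fin n)) v ∉ H).card : ℝ) ≤
      η * H.card) ∧
    r₁ ≤ (Finset.univ.filter fun q => pz xc.1 g t (xc.2 q) ∈ H).card) ≤
      ∑ t ∈ Finset.range (m + 1), ∑ h ∈ Finset.Icc h₁ h₂,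
        ∑ H ∈ (Finset.univ : Finset (Fin n)).powersetCard h,
          ind (A xc.1 H h) * ind (R xc.1 t H xc.2) := by
    intro xc
    have hnn : ∀ t h H, 0 ≤ ind (A xc.1 H h) * ind (R xc.1 t H xc.2) :=
      fun t h H => mul_nonneg (ind_nonneg _) (ind_nonneg _)
    by_cases hex : (∃ t ≤ m, ∃ H : Finset (Fin n), h₁ ≤ H.card ∧
    H.card ≤ h₂ ∧ (∀ i : Fin 2, ((H.filter fun v => (xc.1 i : Perm (Fin n)) v ∉ H).card : ℝ) ≤
      η * H.card) ∧
    r₁ ≤ (Finset.univ.filter fun q => pz xc.1 g t (xc.2 q) ∈ H).card)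
    · rw [ind_true hex]
      obtain ⟨t, ht, H, hH1, hH2, hH3, hH4⟩ := hex
      have hA' : A xc.1 H H.card := fun i => Nat.le_floor (hH3 i)
      have hR' : R xc.1 t H xc.2 := hH4
      calc (1 : ℝ) = ind (A xc.1 H H.card) * ind (R xc.1 t H xc.2) := by
            rw [ind_true hA', ind_true hR', one_mul]
        _ ≤ ∑ H' ∈ (Finset.univ : Finset (Fin n)).powersetCard H.card,
            ind (A xc.1 H' H.card) * ind (R xc.1 t H' xc.2) :=
            Finset.single_le_sum (f := fun H' => ind (A xc.1 H' H.card) *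
              ind (R xc.1 t H' xc.2)) (fun H' _ => hnn t H.card H')
              (Finset.mem_powersetCard.2 ⟨Finset.subset_univ _, rfl⟩)
        _ ≤ ∑ h ∈ Finset.Icc h₁ h₂, ∑ H' ∈ (Finset.univ : Finset (Fin n)).powersetCard h,
            ind (A xc.1 H' h) * ind (R xc.1 t H' xc.2) :=
            Finset.single_le_sum (f := fun h => ∑ H' ∈ (Finset.univ : Finset
              (Fin n)).powersetCard h, ind (A xc.1 H' h) * ind (R xc.1 t H' xc.2))
              (fun h _ => Finset.sum_nonneg fun H' _ => hnn t h H')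
              (Finset.mem_Icc.2 ⟨hH1, hH2⟩)
        _ ≤ _ := Finset.single_le_sum (f := fun t => ∑ h ∈ Finset.Icc h₁ h₂, ∑ H' ∈
              (Finset.univ : Finset (Fin n)).powersetCard h, ind (A xc.1 H' h) *
                ind (R xc.1 t H' xc.2))
              (fun t _ => Finset.sum_nonneg fun h _ => Finset.sum_nonneg fun H' _ => hnn t h H')
              (Finset.mem_range.2 (by omega))
    · rw [ind_false hex]
      exact Finset.sum_nonneg fun t _ => Finset.sum_nonneg fun h _ =>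
        Finset.sum_nonneg fun H' _ => hnn t h H'
  have hRT : ∀ (x : Fin 2 → Alt n) (t h : ℕ) (H : Finset (Fin n)), H.card = h →
      ∑ c, ind (R x t H c) ≤ D * 4 ^ r * ((h : ℝ) / n) ^ r₁ := by
    intro x t h H hH
    rw [← card_eq_ind, ← hH]
    exact h2 n r r₁ (pz x g t) H hrn hn
  calc _ ≤ ∑ xc : (Fin 2 → Alt n) × Pts n r, ∑ t ∈ Finset.range (m + 1),
        ∑ h ∈ Finset.Icc h₁ h₂, ∑ H ∈ (Finset.univ : Finset (Fin n)).powersetCard h,
          ind (A xc.1 H h) * ind (R xc.1 t H xc.2) :=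
        Finset.sum_le_sum fun xc _ => hkey xc
    _ = ∑ t ∈ Finset.range (m + 1), ∑ h ∈ Finset.Icc h₁ h₂,
        ∑ H ∈ (Finset.univ : Finset (Fin n)).powersetCard h, ∑ x : Fin 2 → Alt n,
          ind (A x H h) * ∑ c : Pts n r, ind (R x t H c) := by
        rw [Finset.sum_comm]
        refine Finset.sum_congr rfl fun t _ => ?_
        rw [Finset.sum_comm]
        refine Finset.sum_congr rfl fun h _ => ?_
        rw [Finset.sum_comm]
        refine Finset.sum_congr rfl fun H _ => ?_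
        rw [Fintype.sum_prod_type]
        refine Finset.sum_congr rfl fun x _ => ?_
        rw [Finset.mul_sum]
    _ ≤ ∑ t ∈ Finset.range (m + 1), ∑ h ∈ Finset.Icc h₁ h₂,
        ∑ H ∈ (Finset.univ : Finset (Fin n)).powersetCard h, ∑ x : Fin 2 → Alt n,
          ind (A x H h) * (D * 4 ^ r * ((h : ℝ) / n) ^ r₁) := by
        refine Finset.sum_le_sum fun t _ => Finset.sum_le_sum fun h _ =>
          Finset.sum_le_sum fun H hH => Finset.sum_le_sum fun x _ => ?_
        exact mul_le_mul_of_nonneg_left (hRT x t h H (Finset.mem_powersetCard.1 hH).2)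
          (ind_nonneg _)
    _ = ∑ t ∈ Finset.range (m + 1), ∑ h ∈ Finset.Icc h₁ h₂,
        (∑ H ∈ (Finset.univ : Finset (Fin n)).powersetCard h,
          (Nat.card {x : Fin 2 → Alt n // A x H h} : ℝ)) *
            (D * 4 ^ r * ((h : ℝ) / n) ^ r₁) := by
        refine Finset.sum_congr rfl fun t _ => Finset.sum_congr rfl fun h _ => ?_
        rw [Finset.sum_mul]
        refine Finset.sum_congr rfl fun H _ => ?_
        rw [card_eq_ind, Finset.sum_mul]
    _ ≤ ∑ t ∈ Finset.range (m + 1), ∑ h ∈ Finset.Icc h₁ h₂,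
        ((Nat.card (Alt n) : ℝ) ^ 2 * (4 * h / n) ^ h * (n : ℝ) ^ (2 * ⌊η * h⌋₊)) *
            (D * 4 ^ r * ((h : ℝ) / n) ^ r₁) := by
        refine Finset.sum_le_sum fun t _ => Finset.sum_le_sum fun h hh => ?_
        rw [Finset.mem_Icc] at hh
        refine mul_le_mul_of_nonneg_right (h1 n h ⌊η * h⌋₊ (by omega) (by omega)) ?_
        positivity
    _ = (Nat.card (Alt n) : ℝ) ^ 2 * D * ((m + 1) *
        ∑ h ∈ Finset.Icc h₁ h₂, (4 * h / n : ℝ) ^ h * (n : ℝ) ^ (2 * ⌊η * h⌋₊) * 4 ^ r *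
          ((h : ℝ) / n) ^ r₁) := by
        rw [Finset.sum_const, Finset.card_range, nsmul_eq_mul, Finset.mul_sum, Finset.mul_sum,
          Finset.mul_sum]
        refine Finset.sum_congr rfl fun h _ => ?_
        push_cast
        ring

end Pool.Agent.Helper70.AK
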